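import Mathlib

set_option autoImplicit false

/-! # A lower bound on vertical lines for `∑ (a_i + b_i ζ(2s)) e^{l_i s}` -/

namespace Pool.Agent.W5h47.ML

open Complex Finset Filter Topology

variable {k : ℕ}

/-- frequency -/
noncomputable def fr (l : Fin k → ℝ) (x : Fin k × ℕ) : ℝ := l x.1 - 2 * Real.log x.2

/-- coefficient -/
noncomputable def cf (a b : Fin k → ℝ) (x : Fin k × ℕ) : ℝ := if x.2 = 0 then a x.1 else b x.1

/-- the combined coefficient of a frequency in a finite set of indices -/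
noncomputable def Cc (l a b : Fin k → ℝ) (F : Finset (Fin k × ℕ)) (μ : ℝ) : ℝ :=
  ∑ x ∈ F.filter (fun x => fr l x = μ), cf a b x

lemma exists_N (l : Fin k → ℝ) (lam : ℝ) : ∃ N : ℕ, ∀ i n, N < n → fr l (i, n) < lam := by
  have h : ∀ i : Fin k, ∀ᶠ n : ℕ in atTop, fr l (i, n) < lam := by
    intro i
    have h1 : Tendsto (fun n : ℕ => Real.log n) atTop atTop :=
      Real.tendsto_log_atTop.comp tendsto_natCast_atTop_atTop
    filter_upwards [h1.eventually_gt_atTop ((l i - lam) / 2)] with n hn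
    unfold fr
    simp only
    linarith
  obtain ⟨N, hN⟩ := eventually_atTop.1 (eventually_all.2 h)
  exact ⟨N, fun i n hn => hN n hn.le i⟩

lemma bad_subsingleton {r : ℝ} (hr : r < 1) :
    {p : ℕ | p.Prime ∧ ∃ n : ℕ, 1 ≤ n ∧ (n : ℝ) = p * r}.Subsingleton := by
  rintro p ⟨hp, n, hn, hnp⟩ q ⟨hq, m, hm, hmq⟩
  by_contra hpq
  have h1 : (n : ℝ) * q = m * p := by rw [hnp, hmq]; ring
  have h2 : n * q = m * p := by exact_mod_cast h1
  have h3 : p ∣ n * q := by rw [h2]; exact dvd_mul_left p m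
  have h4 : p ∣ n := by
    rcases hp.dvd_mul.1 h3 with h | h
    · exact h
    · exact absurd ((Nat.prime_dvd_prime_iff_eq hp hq).1 h) hpq
  have h5 : p ≤ n := Nat.le_of_dvd hn h4
  have h6 : (p : ℝ) ≤ n := by exact_mod_cast h5
  have h7 : (0 : ℝ) < p := by exact_mod_cast hp.pos
  rw [hnp] at h6
  nlinarith

theorem exists_coeff (l : Fin k → ℝ) (hl : Function.Injective l) (a b : Fin k → ℝ)
    (h : ∃ i, a i ≠ 0 ∨ b i ≠ 0) : ∃ (lam : ℝ) (N : ℕ), (∀ i n, N < n → fr l (i, n) < lam - 1) ∧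
      Cc l a b (univ ×ˢ range (N + 1)) lam ≠ 0 := by
  by_cases hb : ∀ i, b i = 0
  · obtain ⟨i, hi⟩ := h
    have hai : a i ≠ 0 := by
      rcases hi with h | h
      · exact h
      · exact absurd (hb i) h
    obtain ⟨N, hN⟩ := exists_N l (l i - 1)
    refine ⟨l i, N, hN, ?_⟩
    unfold Cc
    rw [Finset.sum_eq_single (i, 0)]
    · simpa [cf] using hai
    · rintro ⟨j, n⟩ hx hne
      rw [Finset.mem_filter] at hx
      unfold cf
      by_cases hn : n = 0
      · subst hn
        exfalso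
        apply hne
        have h1 := hx.2
        simp only [fr, Nat.cast_zero, Real.log_zero, mul_zero, sub_zero] at h1
        rw [hl h1]
      · simp [hn, hb j]
    · intro hx
      exfalso
      apply hx
      exact Finset.mem_filter.2 ⟨by simp, by simp [fr]⟩
  · push Not at hb
    obtain ⟨i0, hi0, hmax⟩ := Finset.exists_max_image (univ.filter (fun i => b i ≠ 0)) l
      (by obtain ⟨i, hi⟩ := hb; exact ⟨i, by simpa using hi⟩)
    have hb0 : b i0 ≠ 0 := by simpa using hi0
    -- the bad primes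
    have hbad : (⋃ j : Fin k, {p : ℕ | Real.exp ((l j - l i0) / 2) < 1 ∧ p.Prime ∧
        ∃ n : ℕ, 1 ≤ n ∧ (n : ℝ) = p * Real.exp ((l j - l i0) / 2)}).Finite := by
      apply Set.finite_iUnion
      intro j
      by_cases hr : Real.exp ((l j - l i0) / 2) < 1
      · refine (bad_subsingleton hr).finite.subset ?_
        rintro p ⟨_, hp⟩
        exact hp
      · convert Set.finite_empty
        ext p
        simp [hr]
    have hsmall : (⋃ j : Fin k, {p : ℕ | fr l (i0, p) = l j}).Finite := by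
      apply Set.finite_iUnion
      intro j
      obtain ⟨N, hN⟩ := exists_N l (l j)
      refine (Set.finite_le_nat N).subset ?_
      intro p hp
      by_contra hcon
      simp only [Set.mem_ofPred_eq, not_le] at hcon hp
      exact absurd hp (hN i0 p hcon).ne
    obtain ⟨p, hp, hpn⟩ := (Nat.infinite_setOfPred_prime.sdiff (hbad.union hsmall)).nonempty
    have hpp : p.Prime := hp
    simp only [Set.mem_union, not_or] at hpn
    obtain ⟨hp1, hp2⟩ := hpn
    obtain ⟨N, hN⟩ := exists_N l (fr l (i0, p) - 1)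
    refine ⟨fr l (i0, p), max N p, fun i n hn => hN i n (lt_of_le_of_lt (le_max_left _ _) hn), ?_⟩
    unfold Cc
    rw [Finset.sum_eq_single (i0, p)]
    · simpa [cf, hpp.ne_zero] using hb0
    · rintro ⟨j, n⟩ hx hne
      rw [Finset.mem_filter] at hx
      have hf := hx.2
      unfold cf
      by_cases hn : n = 0
      · subst hn
        exfalso
        apply hp2
        simp only [Set.mem_iUnion, Set.mem_ofPred_eq]
        refine ⟨j, ?_⟩
        rw [← hf]
        simp [fr]
      · simp only [hn, if_false]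
        by_contra hbj
        have hle : l j ≤ l i0 := hmax j (by simpa using hbj)
        have hn1 : 1 ≤ n := Nat.one_le_iff_ne_zero.2 hn
        have hnR : (0 : ℝ) < n := by exact_mod_cast hn1
        have hpR : (0 : ℝ) < p := by exact_mod_cast hpp.pos
        simp only [fr] at hf
        have hlog : Real.log n = Real.log p + (l j - l i0) / 2 := by linarith
        have hval : (n : ℝ) = p * Real.exp ((l j - l i0) / 2) := by
          rw [← Real.exp_log hnR, hlog, Real.exp_add, Real.exp_log hpR]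
        rcases hle.eq_or_lt with h1 | h1
        · have hj : j = i0 := hl h1
          apply hne
          rw [hj, sub_self, zero_div, Real.exp_zero, mul_one] at hval
          have : n = p := by exact_mod_cast hval
          rw [hj, this]
        · apply hp1
          simp only [Set.mem_iUnion, Set.mem_ofPred_eq]
          refine ⟨j, ?_, hpp, n, hn1, hval⟩
          rw [Real.exp_lt_one_iff]
          linarith
    · intro hx
      exfalso
      apply hx
      simp

/-- the leading frequency -/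
theorem exists_leading (l : Fin k → ℝ) (hl : Function.Injective l) (a b : Fin k → ℝ)
    (h : ∃ i, a i ≠ 0 ∨ b i ≠ 0) : ∃ (μ : ℝ) (N : ℕ), (∀ i n, N < n → fr l (i, n) < μ - 1) ∧
      Cc l a b (univ ×ˢ range (N + 1)) μ ≠ 0 ∧
      ∀ ν, μ < ν → Cc l a b (univ ×ˢ range (N + 1)) ν = 0 := by
  obtain ⟨lam, N, hN, hC⟩ := exists_coeff l hl a b h
  set F : Finset (Fin k × ℕ) := univ ×ˢ range (N + 1) with hF
  have hempty : ∀ ν, ν ∉ F.image (fr l) → Cc l a b F ν = 0 := by
    intro ν hν
    unfold Cc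
    apply Finset.sum_eq_zero
    intro x hx
    rw [Finset.mem_filter] at hx
    exact absurd (Finset.mem_image.2 ⟨x, hx.1, hx.2⟩) hν
  have hmem : lam ∈ (F.image (fr l)).filter (fun ν => lam ≤ ν ∧ Cc l a b F ν ≠ 0) := by
    rw [Finset.mem_filter]
    refine ⟨?_, le_rfl, hC⟩
    by_contra hcon
    exact hC (hempty lam hcon)
  obtain ⟨μ, hμ, hmax⟩ := Finset.exists_max_image _ (fun ν : ℝ => ν) ⟨lam, hmem⟩
  rw [Finset.mem_filter] at hμ
  refine ⟨μ, N, fun i n hn => ?_, hμ.2.2, fun ν hν => ?_⟩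
  · have := hN i n hn
    linarith [hμ.2.1]
  · by_contra hcon
    have h1 : ν ∈ (F.image (fr l)).filter (fun ν => lam ≤ ν ∧ Cc l a b F ν ≠ 0) := by
      rw [Finset.mem_filter]
      refine ⟨?_, by linarith [hμ.2.1], hcon⟩
      by_contra h2
      exact hcon (hempty ν h2)
    have h2 : ν ≤ μ := hmax ν h1
    linarith

/-- the finite part -/
theorem finite_part (l a b : Fin k → ℝ) (F : Finset (Fin k × ℕ)) {μ : ℝ}
    (h0 : ∀ ν, μ < ν → Cc l a b F ν = 0) (s : ℂ) :
    ∑ x ∈ F, (cf a b x : ℂ) * Complex.exp (fr l x * s) =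
      Cc l a b F μ * Complex.exp (μ * s) +
        ∑ x ∈ F.filter (fun x => fr l x < μ), (cf a b x : ℂ) * Complex.exp (fr l x * s) := by
  have hfib : ∀ ν, ∑ x ∈ F.filter (fun x => fr l x = ν), (cf a b x : ℂ) * Complex.exp (fr l x * s) =
      Cc l a b F ν * Complex.exp (ν * s) := by
    intro ν
    unfold Cc
    push_cast
    rw [Finset.sum_mul]
    apply Finset.sum_congr rfl
    intro x hx
    rw [Finset.mem_filter] at hx
    rw [hx.2]
  have hgt : ∑ x ∈ F.filter (fun x => μ < fr l x), (cf a b x : ℂ) * Complex.exp (fr l x * s) = 0 := by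
    rw [← Finset.sum_fiberwise_of_maps_to (g := fr l)
      (t := (F.filter (fun x => μ < fr l x)).image (fr l))
      (fun x hx => Finset.mem_image_of_mem _ hx)]
    apply Finset.sum_eq_zero
    intro ν hν
    obtain ⟨y, hy, hyν⟩ := Finset.mem_image.1 hν
    rw [Finset.mem_filter] at hy
    have hμν : μ < ν := by rw [← hyν]; exact hy.2
    rw [Finset.filter_filter]
    have : F.filter (fun x => μ < fr l x ∧ fr l x = ν) = F.filter (fun x => fr l x = ν) := by
      apply Finset.filter_congr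
      intro x _
      constructor
      · exact fun h => h.2
      · intro h
        exact ⟨by rw [h]; exact hμν, h⟩
    rw [this, hfib, h0 ν hμν]
    simp
  rw [← Finset.sum_filter_add_sum_filter_not F (fun x => μ < fr l x), hgt, zero_add,
    ← Finset.sum_filter_add_sum_filter_not (F.filter (fun x => ¬ μ < fr l x))
      (fun x => fr l x = μ), Finset.filter_filter, Finset.filter_filter, ← hfib μ]
  congr 1
  · apply Finset.sum_congr _ (fun _ _ => rfl)
    apply Finset.filter_congr
    intro x _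
    constructor
    · exact fun h => h.2
    · intro h
      exact ⟨by rw [h]; exact lt_irrefl _, h⟩
  · apply Finset.sum_congr _ (fun _ _ => rfl)
    apply Finset.filter_congr
    intro x _
    constructor
    · rintro ⟨h1, h2⟩
      exact lt_of_le_of_ne (not_lt.1 h1) h2
    · intro h
      exact ⟨not_lt.2 h.le, h.ne⟩

lemma term_eq (l : Fin k → ℝ) (i : Fin k) (n : ℕ) (s : ℂ) :
    Complex.exp (fr l (i, n + 1) * s) =
      Complex.exp (l i * s) * (1 / ((n : ℂ) + 1) ^ (2 * s)) := by
  have hne : ((n : ℂ) + 1) ≠ 0 := by exact_mod_cast Nat.succ_ne_zero n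
  have hlog : Complex.log ((n : ℂ) + 1) = (Real.log ((n + 1 : ℕ) : ℝ) : ℂ) := by
    rw [Complex.ofReal_log (by positivity)]
    push_cast
    rfl
  rw [Complex.cpow_def_of_ne_zero hne, one_div, ← Complex.exp_neg, ← Complex.exp_add, hlog]
  congr 1
  unfold fr
  push_cast
  ring

/-- the decomposition -/
theorem decomp (l a b : Fin k → ℝ) (N : ℕ) {s : ℂ} (hs : 1 ≤ s.re) :
    ∑ i, ((a i : ℂ) + b i * riemannZeta (2 * s)) * Complex.exp (l i * s) =
      ∑ x ∈ univ ×ˢ range (N + 1), (cf a b x : ℂ) * Complex.exp (fr l x * s) +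
        ∑ i, (b i : ℂ) * ∑' n : ℕ, Complex.exp (fr l (i, n + N + 1) * s) := by
  have hs2 : 1 < (2 * s).re := by
    have : (2 * s).re = 2 * s.re := by simp
    rw [this]
    linarith
  have hsum : Summable (fun n : ℕ => 1 / ((n : ℂ) + 1) ^ (2 * s)) := by
    have := (Complex.summable_one_div_nat_cpow (p := 2 * s)).2 hs2
    have h2 := (summable_nat_add_iff 1).2 this
    simpa using h2
  rw [Finset.sum_product, ← Finset.sum_add_distrib]
  apply Finset.sum_congr rfl
  intro i _
  have hz : riemannZeta (2 * s) = ∑ n ∈ range N, 1 / ((n : ℂ) + 1) ^ (2 * s) +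
      ∑' n : ℕ, 1 / (((n + N : ℕ) : ℂ) + 1) ^ (2 * s) := by
    rw [zeta_eq_tsum_one_div_nat_add_one_cpow hs2]
    exact (hsum.sum_add_tsum_nat_add N).symm
  rw [Finset.sum_range_succ', hz]
  have h1 : ∀ n : ℕ, (cf a b (i, n + 1) : ℂ) = b i := by
    intro n
    simp [cf]
  have h0 : (cf a b (i, 0) : ℂ) = a i := by simp [cf]
  have h00 : (fr l (i, 0) : ℂ) = l i := by simp [fr]
  rw [h0, h00]
  have h3 : ∑ n ∈ range N, (cf a b (i, n + 1) : ℂ) * Complex.exp (fr l (i, n + 1) * s) =
      b i * ((∑ n ∈ range N, 1 / ((n : ℂ) + 1) ^ (2 * s)) * Complex.exp (l i * s)) := by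
    rw [Finset.sum_mul, Finset.mul_sum]
    apply Finset.sum_congr rfl
    intro n _
    rw [h1, term_eq]
    ring
  have h4 : ∑' n : ℕ, Complex.exp (fr l (i, n + N + 1) * s) =
      (∑' n : ℕ, 1 / (((n + N : ℕ) : ℂ) + 1) ^ (2 * s)) * Complex.exp (l i * s) := by
    rw [← tsum_mul_right]
    apply tsum_congr
    intro n
    rw [term_eq]
    ring
  rw [h3, h4]
  ring

theorem LB (k : ℕ) (l : Fin k → ℝ) (hl : Function.Injective l) (a b : Fin k → ℝ)
    (h : ∃ i, a i ≠ 0 ∨ b i ≠ 0) : ∃ s1 : ℝ, 1 ≤ s1 ∧ ∀ s ≥ s1, ∃ c > 0, ∀ t : ℝ,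
      c ≤ ‖∑ i, ((a i : ℂ) + b i * riemannZeta (2 * (s + t * I))) *
        Complex.exp (l i * (s + t * I))‖ := by
  obtain ⟨μ, N, hN, hC, h0⟩ := exists_leading l hl a b h
  set F : Finset (Fin k × ℕ) := univ ×ˢ range (N + 1) with hF
  set C : ℝ := |Cc l a b F μ| with hCdef
  have hCpos : 0 < C := abs_pos.2 hC
  -- the constants of the tail
  have hsumm : Summable (fun n : ℕ => Real.exp (-2 * Real.log ((n + N + 1 : ℕ) : ℝ))) := by
    have h1 : Summable (fun n : ℕ => 1 / (n : ℝ) ^ (2 : ℕ)) :=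
      Real.summable_one_div_nat_pow.2 (by norm_num)
    have h2 := (summable_nat_add_iff (N + 1)).2 h1
    refine h2.congr fun n => ?_
    have hpos : (0 : ℝ) < ((n + N + 1 : ℕ) : ℝ) := by positivity
    have e : -2 * Real.log ((n + N + 1 : ℕ) : ℝ) = Real.log (((n + N + 1 : ℕ) : ℝ) ^ (-2 : ℤ)) := by
      rw [Real.log_zpow]
      push_cast
      ring
    rw [e, Real.exp_log (by positivity), zpow_neg, one_div]
    norm_cast
  set K : ℝ := ∑' n : ℕ, Real.exp (-2 * Real.log ((n + N + 1 : ℕ) : ℝ)) with hK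
  set D : ℝ := ∑ i, |b i| * (Real.exp (l i - μ) * K) with hD
  set E : ℝ → ℝ := fun σ => ∑ x ∈ F.filter (fun x => fr l x < μ), |cf a b x| *
    Real.exp ((fr l x - μ) * σ) + D * Real.exp (-(σ - 1)) with hE
  have hE0 : Tendsto E atTop (𝓝 0) := by
    have e1 : Tendsto (fun σ : ℝ => ∑ x ∈ F.filter (fun x => fr l x < μ), |cf a b x| *
        Real.exp ((fr l x - μ) * σ)) atTop (𝓝 (∑ x ∈ F.filter (fun x => fr l x < μ), |cf a b x| * 0)) := by
      apply tendsto_finsetSum
      intro x hx
      rw [Finset.mem_filter] at hx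
      apply Tendsto.const_mul
      apply Real.tendsto_exp_atBot.comp
      exact tendsto_id.const_mul_atTop_of_neg (by linarith [hx.2])
    have e2 : Tendsto (fun σ : ℝ => D * Real.exp (-(σ - 1))) atTop (𝓝 (D * 0)) := by
      apply Tendsto.const_mul
      apply Real.tendsto_exp_atBot.comp
      apply tendsto_neg_atTop_atBot.comp
      exact tendsto_atTop_add_const_right _ _ tendsto_id
    have e3 := e1.add e2
    simp only [mul_zero, Finset.sum_const_zero, add_zero] at e3
    exact e3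
  have hev : ∀ᶠ σ in atTop, E σ < C / 2 := hE0.eventually (gt_mem_nhds (by positivity))
  obtain ⟨s0, hs0⟩ := eventually_atTop.1 hev
  refine ⟨max s0 1, le_max_right _ _, fun σ hσ => ?_⟩
  have hσ0 : s0 ≤ σ := (le_max_left _ _).trans hσ
  have hσ1 : 1 ≤ σ := (le_max_right _ _).trans hσ
  have hEσ := hs0 σ hσ0
  refine ⟨Real.exp (μ * σ) * (C / 2), by positivity, fun t => ?_⟩
  set s : ℂ := (σ : ℂ) + t * I with hs
  have hre : s.re = σ := by simp [hs]
  rw [decomp l a b N (by rw [hre]; exact hσ1), finite_part l a b F h0 s]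
  have hexp : ∀ c : ℝ, ‖Complex.exp ((c : ℂ) * s)‖ = Real.exp (c * σ) := by
    intro c
    rw [Complex.norm_exp, Complex.re_ofReal_mul, hre]
  -- the leading term
  have hlead : ‖(Cc l a b F μ : ℂ) * Complex.exp (μ * s)‖ = Real.exp (μ * σ) * C := by
    rw [norm_mul, hexp, Complex.norm_real, Real.norm_eq_abs]
    ring
  have hmid : ‖∑ x ∈ F.filter (fun x => fr l x < μ), (cf a b x : ℂ) * Complex.exp (fr l x * s)‖ ≤
      Real.exp (μ * σ) * ∑ x ∈ F.filter (fun x => fr l x < μ), |cf a b x| *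
        Real.exp ((fr l x - μ) * σ) := by
    refine (norm_sum_le _ _).trans (le_of_eq ?_)
    rw [Finset.mul_sum]
    apply Finset.sum_congr rfl
    intro x _
    rw [norm_mul, hexp, Complex.norm_real, Real.norm_eq_abs]
    have : Real.exp (fr l x * σ) = Real.exp (μ * σ) * Real.exp ((fr l x - μ) * σ) := by
      rw [← Real.exp_add]
      congr 1
      ring
    rw [this]
    ring
  have htail1 : ∀ i, ‖∑' n : ℕ, Complex.exp (fr l (i, n + N + 1) * s)‖ ≤
      Real.exp (μ * σ) * (Real.exp (-(σ - 1)) * (Real.exp (l i - μ) * K)) := by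
    intro i
    have hh : HasSum (fun n : ℕ => Real.exp (μ * σ) * (Real.exp (-(σ - 1)) * (Real.exp (l i - μ) *
        Real.exp (-2 * Real.log ((n + N + 1 : ℕ) : ℝ)))))
        (Real.exp (μ * σ) * (Real.exp (-(σ - 1)) * (Real.exp (l i - μ) * K))) :=
      ((hsumm.hasSum.mul_left _).mul_left _).mul_left _
    refine tsum_of_norm_bounded hh fun n => ?_
    rw [hexp, ← Real.exp_add, ← Real.exp_add, ← Real.exp_add]
    apply Real.exp_le_exp.2
    have h1 := hN i (n + N + 1) (by omega)
    have h2 : fr l (i, n + N + 1) = l i - 2 * Real.log ((n + N + 1 : ℕ) : ℝ) := rfl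
    rw [h2] at h1 ⊢
    nlinarith
  have htail : ‖∑ i, (b i : ℂ) * ∑' n : ℕ, Complex.exp (fr l (i, n + N + 1) * s)‖ ≤
      Real.exp (μ * σ) * (D * Real.exp (-(σ - 1))) := by
    refine (norm_sum_le _ _).trans ?_
    rw [hD, Finset.sum_mul, Finset.mul_sum]
    apply Finset.sum_le_sum
    intro i _
    rw [norm_mul, Complex.norm_real, Real.norm_eq_abs]
    calc |b i| * ‖∑' n : ℕ, Complex.exp (fr l (i, n + N + 1) * s)‖
        ≤ |b i| * (Real.exp (μ * σ) * (Real.exp (-(σ - 1)) * (Real.exp (l i - μ) * K))) :=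
          mul_le_mul_of_nonneg_left (htail1 i) (abs_nonneg _)
      _ = _ := by ring
  have hfin : Real.exp (μ * σ) * C - Real.exp (μ * σ) * E σ ≤
      ‖(Cc l a b F μ : ℂ) * Complex.exp (μ * s) +
        ∑ x ∈ F.filter (fun x => fr l x < μ), (cf a b x : ℂ) * Complex.exp (fr l x * s) +
        ∑ i, (b i : ℂ) * ∑' n : ℕ, Complex.exp (fr l (i, n + N + 1) * s)‖ := by
    have n1 := norm_sub_norm_le ((Cc l a b F μ : ℂ) * Complex.exp (μ * s) +
        ∑ x ∈ F.filter (fun x => fr l x < μ), (cf a b x : ℂ) * Complex.exp (fr l x * s))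
        (-(∑ i, (b i : ℂ) * ∑' n : ℕ, Complex.exp (fr l (i, n + N + 1) * s)))
    have n2 := norm_sub_norm_le ((Cc l a b F μ : ℂ) * Complex.exp (μ * s))
        (-(∑ x ∈ F.filter (fun x => fr l x < μ), (cf a b x : ℂ) * Complex.exp (fr l x * s)))
    rw [sub_neg_eq_add, norm_neg] at n1 n2
    rw [hlead] at n2
    have e : Real.exp (μ * σ) * E σ = Real.exp (μ * σ) *
        (∑ x ∈ F.filter (fun x => fr l x < μ), |cf a b x| * Real.exp ((fr l x - μ) * σ)) +
        Real.exp (μ * σ) * (D * Real.exp (-(σ - 1))) := by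
      rw [hE]
      ring
    rw [e]
    linarith
  refine le_trans ?_ hfin
  have hpos := Real.exp_pos (μ * σ)
  nlinarith

end Pool.Agent.W5h47.ML
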